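import Mathlib
set_option autoImplicit false
namespace Pool.Agent.Results.MP_a6acde_co.BoundedGap
open Finset

/-- The degree of `v` in `G` (the number of its neighbours). -/
noncomputable def deg {V : Type} (G : SimpleGraph V) (v : V) : ℕ := (G.neighborSet v).ncard

/-- `f` is a degree-monotone path of order `m` in `G`. -/
def IsDMPath {V : Type} (G : SimpleGraph V) (m : ℕ) (f : Fin m → V) : Prop :=
  Function.Injective f ∧ ∀ (i : ℕ) (h : i + 1 < m),
    G.Adj (f ⟨i, by omega⟩) (f ⟨i + 1, h⟩) ∧ deg G (f ⟨i, by omega⟩) ≤ deg G (f ⟨i + 1, h⟩)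

lemma deg_compl {V : Type} [Fintype V] (G : SimpleGraph V) (v : V) :
    deg G v + deg Gᶜ v + 1 = Nat.card V := by
  classical
  have h1 : (G.neighborSet v ∪ Gᶜ.neighborSet v) = {v}ᶜ := by
    ext w
    simp only [Set.mem_union, SimpleGraph.mem_neighborSet, SimpleGraph.compl_adj, Set.mem_compl_iff,
      Set.mem_singleton_iff]
    constructor
    · rintro (h | h)
      · exact fun e => G.ne_of_adj h e.symm
      · exact fun e => h.1 e.symm
    · intro h
      by_cases hh : G.Adj v w
      · exact Or.inl hh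
      · exact Or.inr ⟨fun e => h e.symm, hh⟩
  have h2 : Disjoint (G.neighborSet v) (Gᶜ.neighborSet v) := by
    rw [Set.disjoint_left]
    intro w h h'
    exact h'.2 h
  have h3 := Set.ncard_union_eq h2 (Set.toFinite _) (Set.toFinite _)
  rw [h1] at h3
  have h4 : ({v}ᶜ : Set V).ncard + 1 = Nat.card V := by
    have := Set.ncard_add_ncard_compl ({v} : Set V) (Set.toFinite _) (Set.toFinite _)
    rw [Set.ncard_singleton] at this
    omega
  unfold deg
  omega

/-- A graph with `n` vertices without the long paths. -/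
def Cfg (A B α β n : ℕ) : Prop :=
  ∃ (V : Type) (_ : Fintype V) (G : SimpleGraph V), Nat.card V = n ∧
    (¬ ∃ f, IsDMPath G (A + 1) f) ∧ (¬ ∃ f, IsDMPath Gᶜ (B + 1) f) ∧
    ∀ v, deg G v + α ≤ n ∧ β ≤ deg G v + 1

lemma Cfg.compl {A B α β n : ℕ} (h : Cfg A B α β n) : Cfg B A β α n := by
  obtain ⟨V, hV, G, hn, hA, hB, hd⟩ := h
  refine ⟨V, hV, Gᶜ, hn, hB, by rwa [compl_compl], fun v => ?_⟩
  have h1 := hd v
  have h2 := deg_compl G v
  omega

/-- add `k` pairwise non-adjacent vertices adjacent to everything else -/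
def addK {V : Type} (G : SimpleGraph V) (k : ℕ) : SimpleGraph (V ⊕ Fin k) where
  Adj x y := match x, y with
    | Sum.inl a, Sum.inl b => G.Adj a b
    | Sum.inl _, Sum.inr _ => True
    | Sum.inr _, Sum.inl _ => True
    | Sum.inr _, Sum.inr _ => False
  symm := ⟨by
    rintro (a | a) (b | b) h
    · exact h.symm
    · trivial
    · trivial
    · exact h⟩
  loopless := ⟨by
    rintro (a | a) h
    · exact G.loopless.irrefl a h
    · exact h⟩

lemma deg_inl {V : Type} [Fintype V] (G : SimpleGraph V) (k : ℕ) (a : V) :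
    deg (addK G k) (Sum.inl a) = deg G a + k := by
  have h1 : (addK G k).neighborSet (Sum.inl a) = Sum.inl '' (G.neighborSet a) ∪ Set.range Sum.inr := by
    ext (w | w)
    · simp [addK]
    · simp [addK]
  unfold deg
  rw [h1, Set.ncard_union_eq (by
    rw [Set.disjoint_left]; rintro _ ⟨b, _, rfl⟩ ⟨c, hc⟩; exact absurd hc (by simp)) (Set.toFinite _) (Set.toFinite _),
    Set.ncard_image_of_injective _ Sum.inl_injective, ← Set.image_univ,
    Set.ncard_image_of_injective _ Sum.inr_injective, Set.ncard_univ, Nat.card_eq_fintype_card, Fintype.card_fin]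

lemma deg_inr {V : Type} [Fintype V] (G : SimpleGraph V) (k : ℕ) (b : Fin k) :
    deg (addK G k) (Sum.inr b) = Nat.card V := by
  have h1 : (addK G k).neighborSet (Sum.inr b) = Set.range Sum.inl := by
    ext (w | w)
    · simp [addK]
    · simp [addK]
  unfold deg
  rw [h1, ← Set.image_univ, Set.ncard_image_of_injective _ Sum.inl_injective, Set.ncard_univ]

lemma Cfg.stepR {A B α β n k : ℕ} (h : Cfg A B α β n) (hk : k ≤ B) (hα : k + 1 ≤ α)
    (hβ : β + k ≤ n + 1) : Cfg (A + 1) B k (β + k) (n + k) := by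
  obtain ⟨V, hV, G, hn, hA, hB, hd⟩ := h
  refine ⟨V ⊕ Fin k, inferInstance, addK G k, ?_, ?_, ?_, ?_⟩
  · rw [Nat.card_eq_fintype_card, Fintype.card_sum, Fintype.card_fin, ← Nat.card_eq_fintype_card, hn]
  · rintro ⟨f, hf, hp⟩
    have key : ∀ i : ℕ, ∀ h : i < A + 1, ∃ a, f ⟨i, by omega⟩ = Sum.inl a := by
      intro i h
      rcases hfi : f ⟨i, by omega⟩ with a | b
      · exact ⟨a, rfl⟩
      · exfalso
        have hp1 := hp i (by omega)
        rw [hfi] at hp1
        rcases hfj : f ⟨i + 1, by omega⟩ with a' | b'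
        · rw [hfj, deg_inl, deg_inr] at hp1
          have := hd a'
          omega
        · rw [hfj] at hp1
          exact hp1.1
    choose g hg using key
    apply hA
    refine ⟨fun i => g i.1 i.2, ?_, ?_⟩
    · intro i j hij
      have h1 := hg i.1 i.2
      have h2 := hg j.1 j.2
      simp only at hij
      rw [hij, ← h2] at h1
      have := hf h1
      ext
      simpa using this
    · intro i hi
      have hp1 := hp i (by omega)
      rw [hg i (by omega), hg (i + 1) (by omega), deg_inl, deg_inl] at hp1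
      refine ⟨hp1.1, ?_⟩
      show deg G (g i _) ≤ deg G (g (i + 1) hi)
      omega
  · rintro ⟨f, hf, hp⟩
    have hadj : ∀ x y, (addK G k)ᶜ.Adj x y → ((∃ a b, x = Sum.inl a ∧ y = Sum.inl b ∧ Gᶜ.Adj a b) ∨
        (∃ a b, x = Sum.inr a ∧ y = Sum.inr b)) := by
      rintro (a | a) (b | b) hxy
      · refine Or.inl ⟨a, b, rfl, rfl, ?_⟩
        rw [SimpleGraph.compl_adj] at hxy ⊢
        exact ⟨fun e => hxy.1 (by rw [e]), hxy.2⟩
      · exact absurd trivial hxy.2
      · exact absurd trivial hxy.2
      · exact Or.inr ⟨a, b, rfl, rfl⟩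
    have hdl : ∀ a, deg (addK G k)ᶜ (Sum.inl a) = deg Gᶜ a := by
      intro a
      have h1 := deg_compl (addK G k) (Sum.inl a)
      have h2 := deg_compl G a
      rw [deg_inl, Nat.card_eq_fintype_card, Fintype.card_sum, Fintype.card_fin,
        ← Nat.card_eq_fintype_card] at h1
      omega
    rcases hf0 : f ⟨0, by omega⟩ with a0 | b0
    · have key : ∀ i : ℕ, ∀ h : i < B + 1, ∃ a, f ⟨i, h⟩ = Sum.inl a := by
        intro i
        induction i with
        | zero => intro h; exact ⟨a0, hf0⟩
        | succ i ih =>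
          intro h
          obtain ⟨a, ha⟩ := ih (by omega)
          rcases hadj _ _ (hp i h).1 with ⟨a', b', h1, h2, _⟩ | ⟨a', b', h1, h2⟩
          · exact ⟨b', h2⟩
          · rw [ha] at h1; exact absurd h1 (by simp)
      choose g hg using key
      apply hB
      refine ⟨fun i => g i.1 i.2, ?_, ?_⟩
      · intro i j hij
        have h1 := hg i.1 i.2
        have h2 := hg j.1 j.2
        simp only at hij
        rw [hij, ← h2] at h1
        exact hf h1
      · intro i hi
        have hp1 := hp i hi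
        rcases hadj _ _ hp1.1 with ⟨a', b', h1, h2, h3⟩ | ⟨a', b', h1, h2⟩
        · have e1 : g i (by omega) = a' := by
            have := hg i (by omega); rw [h1] at this; exact (Sum.inl_injective this).symm
          have e2 : g (i + 1) hi = b' := by
            have := hg (i + 1) hi; rw [h2] at this; exact (Sum.inl_injective this).symm
          have h4 := hp1.2
          rw [h1, h2, hdl, hdl] at h4
          simp only [e1, e2]
          exact ⟨h3, h4⟩
        · have := hg i (by omega); rw [h1] at this; exact absurd this (by simp)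
    · have key : ∀ i : ℕ, ∀ h : i < B + 1, ∃ a, f ⟨i, h⟩ = Sum.inr a := by
        intro i
        induction i with
        | zero => intro h; exact ⟨b0, hf0⟩
        | succ i ih =>
          intro h
          obtain ⟨a, ha⟩ := ih (by omega)
          rcases hadj _ _ (hp i h).1 with ⟨a', b', h1, h2, _⟩ | ⟨a', b', h1, h2⟩
          · rw [ha] at h1; exact absurd h1 (by simp)
          · exact ⟨b', h2⟩
      choose g hg using key
      have hinj : Function.Injective (fun i : Fin (B + 1) => g i.1 i.2) := by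
        intro i j hij
        have h1 := hg i.1 i.2
        have h2 := hg j.1 j.2
        simp only at hij
        rw [hij, ← h2] at h1
        exact hf h1
      have := Fintype.card_le_of_injective _ hinj
      simp at this
      omega
  · rintro (a | b)
    · rw [deg_inl]
      have := hd a
      omega
    · rw [deg_inr, hn]
      omega

lemma Cfg.stepL {A B α β n k : ℕ} (h : Cfg A B α β n) (hk : k ≤ A) (hβ : k + 1 ≤ β)
    (hα : α + k ≤ n + 1) : Cfg A (B + 1) (α + k) k (n + k) :=
  (h.compl.stepR hk hβ hα).compl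

lemma cfg_start : Cfg 1 3 3 1 3 := by
  refine ⟨Fin 3, inferInstance, ⊥, by simp, ?_, ?_, ?_⟩
  · rintro ⟨f, hf, hp⟩
    exact (hp 0 (by omega)).1
  · rintro ⟨f, hf, hp⟩
    have := Fintype.card_le_of_injective _ hf
    simp at this
  · intro v
    have : deg (⊥ : SimpleGraph (Fin 3)) v = 0 := by
      unfold deg
      simp
    omega

lemma cfg4 : Cfg 4 5 5 8 18 := by
  have h1 := cfg_start.stepR (k := 2) (by omega) (by omega) (by omega)
  have h2 := h1.stepL (k := 2) (by omega) (by omega) (by omega)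
  have h3 := h2.stepR (k := 3) (by omega) (by omega) (by omega)
  have h4 := h3.stepL (k := 3) (by omega) (by omega) (by omega)
  exact h4.stepR (k := 5) (by omega) (by omega) (by omega)

lemma cfgX (t : ℕ) : Cfg (t + 4) (t + 5) (t + 5) (2 * t + 8) (t * t + 9 * t + 18) := by
  induction t with
  | zero => exact cfg4
  | succ t ih =>
    have h1 := ih.stepL (k := t + 4) (by omega) (by omega) (by nlinarith)
    have h2 := h1.stepR (k := t + 6) (by omega) (by omega) (by nlinarith)
    have e : t * t + 9 * t + 18 + (t + 4) + (t + 6) = (t + 1) * (t + 1) + 9 * (t + 1) + 18 := by ring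
    have e2 : t + 4 + (t + 6) = 2 * (t + 1) + 8 := by ring
    rw [e, e2] at h2
    exact h2

lemma cfgSq (t : ℕ) : Cfg (t + 5) (t + 5) (t + 4) (3 * t + 12) (t * t + 10 * t + 22) := by
  have h := (cfgX t).stepR (k := t + 4) (by omega) (by omega) (by nlinarith)
  have e : t * t + 9 * t + 18 + (t + 4) = t * t + 10 * t + 22 := by ring
  have e2 : 2 * t + 8 + (t + 4) = 3 * t + 12 := by ring
  rw [e, e2] at h
  exact h


/-! ### The upper bound `M_2(m) ≤ (m-1)^2 + 1` (known; it shows that `M_2(m)` is finite) -/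

lemma labels {V : Type} (H : SimpleGraph V) (κ : V → ℤ)
    (hκ : ∀ u v, κ u < κ v → deg H u ≤ deg H v) (m : ℕ) (hm : 1 ≤ m)
    (hno : ¬ ∃ f, IsDMPath H m f) :
    ∃ a : V → ℕ, (∀ v, a v < m - 1) ∧ ∀ u v, H.Adj u v → κ u < κ v → a u < a v := by
  classical
  let P : ℕ → V → Prop := fun k v => ∃ f : ℕ → V,
    (∀ i < k, H.Adj (f i) (f (i + 1)) ∧ κ (f i) < κ (f (i + 1))) ∧ f k = v
  have hP0 : ∀ v, P 0 v := fun v => ⟨fun _ => v, by simp, rfl⟩
  have hPm : ∀ v, ¬ P (m - 1) v := by
    rintro v ⟨f, hf, -⟩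
    apply hno
    have hlt : ∀ i j, i < j → j ≤ m - 1 → κ (f i) < κ (f j) := by
      intro i j hij
      induction j, hij using Nat.le_induction with
      | base => intro h; exact (hf i (by omega)).2
      | succ j hj ih => intro h; exact (ih (by omega)).trans (hf j (by omega)).2
    refine ⟨fun i => f i.1, ?_, ?_⟩
    · intro i j hij
      simp only at hij
      rcases lt_trichotomy i.1 j.1 with h | h | h
      · have := hlt i.1 j.1 h (by omega); rw [hij] at this; exact absurd this (lt_irrefl _)
      · exact Fin.ext h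
      · have := hlt j.1 i.1 h (by omega); rw [hij] at this; exact absurd this (lt_irrefl _)
    · intro i hi
      have := hf i (by omega)
      exact ⟨this.1, hκ _ _ this.2⟩
  let a : V → ℕ := fun v => Nat.findGreatest (fun k => P k v) (m - 1)
  have haP : ∀ v, P (a v) v := fun v => Nat.findGreatest_spec (P := fun k => P k v) (Nat.zero_le _) (hP0 v)
  have hale : ∀ v, a v ≤ m - 1 := fun v => Nat.findGreatest_le _
  have halt : ∀ v, a v < m - 1 := by
    intro v
    rcases lt_or_eq_of_le (hale v) with h | h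
    · exact h
    · exact absurd (h ▸ haP v) (hPm v)
  refine ⟨a, halt, ?_⟩
  intro u v huv hlt
  obtain ⟨f, hf, hfu⟩ := haP u
  have : P (a u + 1) v := by
    refine ⟨fun i => if i ≤ a u then f i else v, ?_, by simp⟩
    intro i hi
    by_cases h : i + 1 ≤ a u
    · simp only [h, if_true, show i ≤ a u by omega]
      exact hf i (by omega)
    · have e : i = a u := by omega
      subst e
      simp only [le_refl, if_true, h, if_false, hfu]
      exact ⟨huv, hlt⟩
  exact Nat.le_findGreatest (P := fun k => P k v) (by have := halt u; omega) this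

/-- For every `n ≥ M` and every colouring of the edges of `K_n` with two colours (colour 1: the
edges of `G`, colour 2: the edges of the complement `Gᶜ`) there is a degree-monotone path of order
`m` in one of the two colours. -/
def Forces (m M : ℕ) : Prop :=
  ∀ n : ℕ, M ≤ n → ∀ G : SimpleGraph (Fin n), (∃ f, IsDMPath G m f) ∨ (∃ f, IsDMPath Gᶜ m f)

/-- `M_2(m)`. -/
noncomputable def M₂ (m : ℕ) : ℕ := sInf {M : ℕ | Forces m M}

theorem forces_upper (m : ℕ) : Forces m ((m - 1) ^ 2 + 1) := by
  intro n hn G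
  by_contra hcon
  push Not at hcon
  obtain ⟨h1, h2⟩ := hcon
  have h1' : ¬ ∃ f, IsDMPath G m f := fun ⟨f, hf⟩ => h1 f hf
  have h2' : ¬ ∃ f, IsDMPath Gᶜ m f := fun ⟨f, hf⟩ => h2 f hf
  rcases Nat.eq_zero_or_pos m with hm | hm
  · subst hm
    exact h1' ⟨fun i => i.elim0, fun i => i.elim0, fun i h => absurd h (by omega)⟩
  let κ : Fin n → ℤ := fun v => (deg G v : ℤ) * n + v.1
  have hκ : ∀ u v, κ u < κ v → deg G u ≤ deg G v := by
    intro u v h
    by_contra hc
    push Not at hc
    have h3 : (deg G v : ℤ) + 1 ≤ deg G u := by exact_mod_cast hc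
    have h4 : (v.1 : ℤ) < n := by exact_mod_cast v.2
    have h5 : (0 : ℤ) ≤ u.1 := by positivity
    have h6 : ((deg G v : ℤ) + 1) * n ≤ deg G u * n :=
      mul_le_mul_of_nonneg_right h3 (by positivity)
    simp only [κ] at h
    nlinarith
  have hκi : ∀ u v, κ u = κ v → u = v := by
    intro u v h
    have h3 : deg G u = deg G v := by
      rcases lt_trichotomy (deg G u) (deg G v) with h3 | h3 | h3
      · exfalso
        have h3' : (deg G u : ℤ) + 1 ≤ deg G v := by exact_mod_cast h3
        have h4 : (u.1 : ℤ) < n := by exact_mod_cast u.2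
        have h5 : (0 : ℤ) ≤ v.1 := by positivity
        have h6 : ((deg G u : ℤ) + 1) * n ≤ deg G v * n :=
          mul_le_mul_of_nonneg_right h3' (by positivity)
        simp only [κ] at h
        nlinarith
      · exact h3
      · exfalso
        have h3' : (deg G v : ℤ) + 1 ≤ deg G u := by exact_mod_cast h3
        have h4 : (v.1 : ℤ) < n := by exact_mod_cast v.2
        have h5 : (0 : ℤ) ≤ u.1 := by positivity
        have h6 : ((deg G v : ℤ) + 1) * n ≤ deg G u * n :=
          mul_le_mul_of_nonneg_right h3' (by positivity)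
        simp only [κ] at h
        nlinarith
    simp only [κ, h3] at h
    have : (u.1 : ℤ) = v.1 := by linarith
    exact Fin.ext (by exact_mod_cast this)
  obtain ⟨a, ha, ha'⟩ := labels G κ hκ m hm h1'
  obtain ⟨b, hb, hb'⟩ := labels Gᶜ (fun v => - κ v) (by
    intro u v h
    have h3 := hκ v u (by linarith)
    have h4 := deg_compl G u
    have h5 := deg_compl G v
    omega) m hm h2'
  have hinj : Function.Injective (fun v : Fin n => ((⟨a v, ha v⟩ : Fin (m - 1)), (⟨b v, hb v⟩ : Fin (m - 1)))) := by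
    intro u v huv
    simp only [Prod.mk.injEq, Fin.mk.injEq] at huv
    by_contra hne
    have key : ∀ x y : Fin n, κ x < κ y → a x = a y → b x = b y → False := by
      intro x y hxy hax hbx
      by_cases hadj : G.Adj x y
      · have := ha' x y hadj hxy; omega
      · have hne' : y ≠ x := fun e => by rw [e] at hxy; exact lt_irrefl _ hxy
        have hc : Gᶜ.Adj y x := by
          rw [SimpleGraph.compl_adj]
          exact ⟨hne', fun h => hadj h.symm⟩
        have := hb' y x hc (by simpa using hxy)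
        omega
    rcases lt_trichotomy (κ u) (κ v) with h | h | h
    · exact key u v h huv.1 huv.2
    · exact hne (hκi u v h)
    · exact key v u h huv.1.symm huv.2.symm
  have := Fintype.card_le_of_injective _ hinj
  simp only [Fintype.card_fin, Fintype.card_prod] at this
  nlinarith

theorem not_forces (t : ℕ) (M : ℕ) (h : Forces (t + 6) M) : (t + 5) ^ 2 ≤ M + 2 := by
  classical
  by_contra hcon
  push Not at hcon
  obtain ⟨V, hV, G, hn, hA, hB, -⟩ := cfgSq t
  have hMn : M ≤ t * t + 10 * t + 22 := by nlinarith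
  have e : V ≃ Fin (t * t + 10 * t + 22) := Fintype.equivFinOfCardEq (by rw [← hn, Nat.card_eq_fintype_card])
  have hdeg : ∀ (H : SimpleGraph V) (x), deg (H.comap e.symm) x = deg H (e.symm x) := by
    intro H x
    unfold deg
    have : (H.comap e.symm).neighborSet x = e.symm ⁻¹' (H.neighborSet (e.symm x)) := by
      ext y; simp [SimpleGraph.comap_adj]
    rw [this, Set.ncard_preimage_of_injective_subset_range e.symm.injective (by simp)]
  have hpath : ∀ (H : SimpleGraph V) f, IsDMPath (H.comap e.symm) (t + 6) f → IsDMPath H (t + 6) (e.symm ∘ f) := by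
    rintro H f ⟨hf, hp⟩
    refine ⟨e.symm.injective.comp hf, fun i hi => ?_⟩
    have := hp i hi
    rw [hdeg, hdeg] at this
    exact this
  have hc : (G.comap e.symm)ᶜ = Gᶜ.comap e.symm := by
    ext x y
    simp [SimpleGraph.compl_adj, SimpleGraph.comap_adj]
  rcases h _ hMn (G.comap e.symm) with ⟨f, hf⟩ | ⟨f, hf⟩
  · exact hA ⟨_, hpath G f hf⟩
  · rw [hc] at hf
    exact hB ⟨_, hpath Gᶜ f hf⟩

/-- Two-colour Ramsey numbers `M_2(m)` for degree-monotone paths: `M_2(m)` is finite (at most
`(m-1)^2 + 1`), `M_2(m) ≥ (m-1)^2 - 2` for every `m ≥ 6`, and hence the statement of Q1 (for every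
constant `C` one has `M_2(m) ≤ (m-1)^2 - C` for all large `m`) is false. -/
theorem result :
    (∀ m : ℕ, Forces m ((m - 1) ^ 2 + 1)) ∧
    (∀ m : ℕ, 6 ≤ m → (m - 1) ^ 2 ≤ M₂ m + 2) ∧
    ¬ (∀ C : ℕ, ∃ m₀ : ℕ, ∀ m : ℕ, m₀ ≤ m → (M₂ m : ℤ) ≤ ((m : ℤ) - 1) ^ 2 - C) := by
  have hmain : ∀ m : ℕ, 6 ≤ m → (m - 1) ^ 2 ≤ M₂ m + 2 := by
    intro m hm
    have hne : {M : ℕ | Forces m M}.Nonempty := ⟨_, forces_upper m⟩
    have hmem : Forces m (M₂ m) := Nat.sInf_mem hne
    obtain ⟨t, rfl⟩ : ∃ t, m = t + 6 := ⟨m - 6, by omega⟩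
    exact not_forces t _ hmem
  refine ⟨forces_upper, hmain, fun h => ?_⟩
  obtain ⟨m₀, hm₀⟩ := h 3
  have h1 := hm₀ (m₀ + 6) (by omega)
  have h2 := hmain (m₀ + 6) (by omega)
  have h3 : ((m₀ + 6 - 1 : ℕ) : ℤ) = ((m₀ + 6 : ℕ) : ℤ) - 1 := by push_cast; ring
  have h4 : (((m₀ + 6 - 1 : ℕ) : ℤ)) ^ 2 ≤ (M₂ (m₀ + 6) : ℤ) + 2 := by exact_mod_cast h2
  rw [h3] at h4
  push_cast at h1 h4
  linarith

end Pool.Agent.Results.MP_a6acde_co.BoundedGap
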